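import Mathlib
import Pool.Agent.Lib.MP_356f68_co.Near

set_option autoImplicit false

namespace Pool.Agent.Results.MP_356f68_co.NearTransversal

open Pool.Agent.Lib.MP_356f68_co.Near

theorem result (d n : ℕ) (hd : 2 * n ≤ d) (L : (Fin d → Fin n) → Fin n)
    (hL : ∀ x : Fin d → Fin n, ∀ j : Fin d,
      Function.Bijective (fun a : Fin n => L (Function.update x j a)))
    (s : Fin (n - 1) → Fin n) :
    ∃ T : Fin (n - 1) → (Fin d → Fin n),
      (∀ j : Fin d, Function.Injective (fun i : Fin (n - 1) => T i j)) ∧ ∀ i, L (T i) = s i := by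
  rcases n with _ | m
  · exact ⟨fun i => i.elim0, fun _ i => i.elim0, fun i => i.elim0⟩
  obtain ⟨e, rfl⟩ : ∃ e, d = e + 1 := ⟨d - 1, by omega⟩
  obtain ⟨ω, hω⟩ := exists_diagonal hd L hL (Fin.snoc (α := fun _ => Fin (m + 1)) s 0) (Fin.last m)
  refine ⟨fun (i : Fin m) k => ω k i.castSucc, fun j a b h => ?_, fun (i : Fin m) => ?_⟩
  · exact Fin.castSucc_injective m ((ω j).injective h)
  · have := hω i.castSucc (Fin.castSucc_lt_last i).ne
    rwa [Fin.snoc_castSucc] at this

end Pool.Agent.Results.MP_356f68_co.NearTransversal
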