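import Mathlib
import Pool.Agent.Lib.MP_356f68_co.Gap.Main

/-! Any `n - 1` Latin hypercubes of dimension at least three and large order `n` have one cell
each such that the cells differ in every coordinate and carry distinct symbols; the unused value
can be prescribed in all but two of the `d + 1` classes (the `d` coordinates and the symbol). -/

set_option autoImplicit false

namespace Pool.Agent.Results.MP_356f68_co.RainbowGap

open Pool.Agent.Lib.MP_356f68_co.Cube

theorem result : ∃ n0 : ℕ, ∀ n : ℕ, n0 ≤ n → ∀ d : ℕ, 3 ≤ d →
    ∀ L : Fin (n - 1) → (Fin d → Fin n) → Fin n,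
      (∀ (i : Fin (n - 1)) (x : Fin d → Fin n) (j : Fin d),
        Function.Bijective (fun a : Fin n => L i (Function.update x j a))) →
      ∀ (p : Option (Fin d) → Fin n) (u v : Option (Fin d)), u ≠ v →
      ∃ T : Fin (n - 1) → (Fin d → Fin n),
        (∀ j : Fin d, Function.Injective (fun i => T i j)) ∧
        Function.Injective (fun i => L i (T i)) ∧
        (∀ (i : Fin (n - 1)) (j : Fin d), some j ≠ u → some j ≠ v → T i j ≠ p (some j)) ∧
        (∀ i : Fin (n - 1), none ≠ u → none ≠ v → L i (T i) ≠ p none) := by
  obtain ⟨n0, h⟩ := near_gap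
  refine ⟨max n0 2, fun n hn d hd L hL p u v huv => ?_⟩
  have hn2 : 2 ≤ n := le_of_max_le_right hn
  obtain ⟨w1, w2, h1, h2, h3⟩ : ∃ w1 w2 : Option (Fin d), (w1 ≠ u ∧ w1 ≠ v) ∧
      (w2 ≠ u ∧ w2 ≠ v) ∧ w1 ≠ w2 := by
    have g1 := Finset.le_card_sdiff {u, v} (Finset.univ : Finset (Option (Fin d)))
    have g2 := Finset.card_le_two (a := u) (b := v)
    rw [Finset.card_univ, Fintype.card_option, Fintype.card_fin] at g1
    obtain ⟨a, ha, b, hb, hab⟩ := Finset.one_lt_card.1
      (show 1 < (Finset.univ \ {u, v} : Finset (Option (Fin d))).card by omega)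
    simp only [Finset.mem_sdiff, Finset.mem_univ, true_and, Finset.mem_insert,
      Finset.mem_singleton, not_or] at ha hb
    exact ⟨a, b, ha, hb, hab⟩
  let π : Option (Fin d) → Fin 5 := fun w =>
    if w = w1 then 1 else if w = w2 then 2 else if w = u then 3 else if w = v then 4 else 0
  have hπ : ∀ k : Fin 5, k ≠ 0 → ∃ w, π w = k ∧ ∀ w', π w' = k → w' = w := by
    intro k hk
    fin_cases k
    · exact absurd rfl hk
    · refine ⟨w1, by simp [π], fun w' hw => ?_⟩
      simp only [π] at hw; split_ifs at hw <;> first | assumption | exact absurd hw (by decide)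
    · refine ⟨w2, by simp [π, h3.symm], fun w' hw => ?_⟩
      simp only [π] at hw; split_ifs at hw <;> first | assumption | exact absurd hw (by decide)
    · refine ⟨u, by simp [π, h1.1.symm, h2.1.symm], fun w' hw => ?_⟩
      simp only [π] at hw; split_ifs at hw <;> first | assumption | exact absurd hw (by decide)
    · refine ⟨v, by simp [π, h1.2.symm, h2.2.symm, huv.symm], fun w' hw => ?_⟩
      simp only [π] at hw; split_ifs at hw <;> first | assumption | exact absurd hw (by decide)
  let o : Fin n := ⟨n - 1, by omega⟩
  let lay : Fin n → Fin (n - 1) := fun i => if h : i.val < n - 1 then ⟨i, h⟩ else ⟨0, by omega⟩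
  let val : (Fin 5 → Fin n) → Option (Fin d) → Fin n := fun g w =>
    if π w = 0 then Equiv.swap o (p w) (g 0) else g (π w)
  obtain ⟨U, g1, g2, g3⟩ := h (Fin n) (by simpa using le_of_max_le_left hn)
    (fun g => L (lay (g 0)) (fun j => val g (some j)) = val g none) (by
    intro k hk g
    obtain ⟨w, k1, k2⟩ := hπ k hk
    have e : ∀ a, val (Function.update g k a) = Function.update (val g) w a := by
      intro a
      funext w'
      by_cases h4 : w' = w
      · simp only [val, h4, k1, if_neg hk, Function.update_self]
      · rw [Function.update_of_ne h4]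
        simp only [val, Function.update_of_ne hk.symm,
          Function.update_of_ne (fun h5 => h4 (k2 w' h5))]
    simp only [e, Function.update_of_ne hk.symm]
    rcases w with _ | j
    · simp only [Function.update_self, Function.update_of_ne (Option.some_ne_none _)]
      exact existsUnique_eq'
    · have e2 : ∀ a, (fun j' => Function.update (val g) (some j) a (some j'))
          = Function.update (fun j' => val g (some j')) j a := by
        intro a
        funext j'
        by_cases h4 : j' = j
        · rw [h4, Function.update_self, Function.update_self]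
        · rw [Function.update_of_ne h4, Function.update_of_ne (fun h5 => h4 (Option.some.inj h5))]
      simp only [e2, Function.update_of_ne (Option.some_ne_none j).symm]
      exact (hL _ _ j).existsUnique _) ![o, p w1, p w2, o, o]
  obtain ⟨T, t1, t2⟩ := g1.index g2 g3
  let em : Fin (n - 1) → Fin n := Fin.castLE (by omega)
  have e1 : ∀ i, em i ≠ o := fun i h => by
    have := congrArg Fin.val h
    simp only [em, o, Fin.val_castLE] at this
    omega
  have e2 : ∀ i, lay (em i) = i := fun i => by simp [lay, em]
  have e3 : ∀ i, L i (fun j => val (T (em i)) (some j)) = val (T (em i)) none := fun i => by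
    have := (t1 (em i) (e1 i)).1
    rwa [(t1 (em i) (e1 i)).2.1, e2] at this
  have e4 : ∀ w, Function.Injective (fun i => val (T (em i)) w) := by
    intro w a b hab
    refine Fin.castLE_injective (Nat.sub_le n 1) (show em a = em b from ?_)
    by_cases h4 : π w = 0
    · simp only [val, if_pos h4] at hab
      exact t2 0 _ _ (e1 a) (e1 b) ((Equiv.swap _ _).injective hab)
    · simp only [val, if_neg h4] at hab
      exact t2 _ _ _ (e1 a) (e1 b) hab
  have e5 : ∀ i w, w ≠ u → w ≠ v → val (T (em i)) w ≠ p w := by
    intro i w h4 h5
    by_cases h6 : w = w1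
    · have : π w = 1 := by simp [π, h6]
      simp only [val, this]
      rw [h6]
      exact (t1 (em i) (e1 i)).2.2.1
    by_cases h7 : w = w2
    · have : π w = 2 := by simp [π, h7, h3.symm]
      simp only [val, this]
      rw [h7]
      exact (t1 (em i) (e1 i)).2.2.2
    · have : π w = 0 := by simp [π, h4, h5, h6, h7]
      simp only [val, this, if_true]
      rw [(t1 (em i) (e1 i)).2.1]
      intro h8
      exact e1 i ((Equiv.swap o (p w)).injective (h8.trans (Equiv.swap_apply_left _ _).symm))
  refine ⟨fun i j => val (T (em i)) (some j), fun j => e4 _, ?_, fun i j => e5 i _, ?_⟩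
  · simp only [e3]
    exact e4 none
  · intro i h4 h5
    simp only [e3]
    exact e5 i none h4 h5

end Pool.Agent.Results.MP_356f68_co.RainbowGap
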