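import Mathlib
import Pool.Agent.Lib.MP_356f68_co.Spec.Main

/-! A family of `n` Latin hypercubes of large order `n` whose line operator has a spectral gap of
at least `n ^ (-1/125)` has a full rainbow transversal. -/

set_option autoImplicit false

namespace Pool.Agent.Results.MP_356f68_co.SpectralGap

open Pool.Agent.Lib.MP_356f68_co.Cube Function

theorem result : ∃ n0 : ℕ, ∀ n : ℕ, n0 ≤ n → ∀ (d : ℕ) (L : Fin n → (Fin d → Fin n) → Fin n),
    (∀ (i : Fin n) (x : Fin d → Fin n) (j : Fin d),
      Function.Bijective (fun t : Fin n => L i (Function.update x j t))) →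
    ∀ a b e : Fin d, a ≠ b → a ≠ e → b ≠ e →
    ∀ D : Fin n → Fin d → Fin n, (∀ j : Fin d, Function.Injective (fun i => D i j)) →
    (∀ f : Fin n → Fin n → ℝ, ∑ z, ∑ s, f z s = 0 →
      ∑ i, ∑ x, ∑ y, (∑ z, f z (L i
          (Function.update (Function.update (Function.update (D i) a x) b y) e z))) ^ 2
        ≤ (1 - (n : ℝ) ^ (-(1 / 125 : ℝ))) * (n : ℝ) ^ 3 * ∑ z, ∑ s, f z s ^ 2) →
    ∃ T : Fin n → Fin d → Fin n,
      (∀ j : Fin d, Function.Injective (fun i => T i j)) ∧
      Function.Injective (fun i => L i (T i)) ∧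
      ∀ (i : Fin n) (j : Fin d), j ≠ a → j ≠ b → j ≠ e → T i j = D i j := by
  obtain ⟨n0, h⟩ := full_gap (2 ^ 125)
  refine ⟨max n0 1, fun n hn d L hL a b e hab hae hbe D hD hgp => ?_⟩
  have hn1 : (1 : ℝ) ≤ n := by exact_mod_cast le_of_max_le_right hn
  set r : ℝ := (n : ℝ) ^ (1 / 125 : ℝ) with hr
  have r1 : 1 ≤ r := Real.one_le_rpow hn1 (by norm_num)
  have r2 : r ^ 125 = n := by
    rw [hr, ← Real.rpow_natCast, ← Real.rpow_mul (by linarith)]
    norm_num
  have r3 : r ≤ ⌈r⌉₊ := Nat.le_ceil r
  have r4 : (⌈r⌉₊ : ℝ) ≤ 2 * r := by linarith [Nat.ceil_lt_add_one (show 0 ≤ r by linarith)]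
  let up : Fin n → Fin n → Fin n → Fin n → Fin d → Fin n := fun i x y z =>
    update (update (update (D i) a x) b y) e z
  have key := h (Fin n) (by simpa using le_of_max_le_left hn)
    (fun g => L (g 0) (up (g 0) (g 1) (g 2) (g 3)) = g 4) (by
      intro k hk g
      fin_cases k
      · exact absurd rfl hk
      · have e1 : ∀ t, up (g 0) t (g 2) (g 3) = update (up (g 0) (g 1) (g 2) (g 3)) a t := by
          intro t
          simp only [up]
          rw [update_comm hae.symm, update_comm hab.symm, update_idem]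
        simpa [← e1] using (hL (g 0) (up (g 0) (g 1) (g 2) (g 3)) a).existsUnique (g 4)
      · have e1 : ∀ t, up (g 0) (g 1) t (g 3) = update (up (g 0) (g 1) (g 2) (g 3)) b t := by
          intro t
          simp only [up]
          rw [update_comm hbe.symm, update_idem]
        simpa [← e1] using (hL (g 0) (up (g 0) (g 1) (g 2) (g 3)) b).existsUnique (g 4)
      · have e1 : ∀ t, up (g 0) (g 1) (g 2) t = update (up (g 0) (g 1) (g 2) (g 3)) e t := by
          intro t
          simp only [up]
          rw [update_idem]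
        simpa [← e1] using (hL (g 0) (up (g 0) (g 1) (g 2) (g 3)) e).existsUnique (g 4)
      · simp) ⌈r⌉₊ (by exact_mod_cast r1.trans r3) (by
      have : (⌈r⌉₊ : ℝ) ^ 125 ≤ 2 ^ 125 * n := by
        rw [← r2, ← mul_pow]
        exact pow_le_pow_left₀ (Nat.cast_nonneg _) r4 _
      rw [Fintype.card_fin]
      exact_mod_cast this) (by
      intro f hf
      rw [Fintype.sum_prod_type] at hf
      have g1 := hgp (fun z s => f (z, s)) hf
      have g2 : ∀ i x y z : Fin n, ∑ s, ind (L i (up i x y z) = s) * f (z, s)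
          = f (z, L i (up i x y z)) := fun i x y z =>
        sum_ind (Q := fun s => L i (up i x y z) = s) rfl (fun _ h => h.symm) (fun s => f (z, s))
      have g3 : ∑ p : Fin n × Fin n × Fin n, (∑ v : Fin n × Fin n,
          ind (L (mk p v 0) (up (mk p v 0) (mk p v 1) (mk p v 2) (mk p v 3)) = mk p v 4) * f v) ^ 2
          = ∑ i, ∑ x, ∑ y, (∑ z, f (z, L i (up i x y z))) ^ 2 := by
        simp only [Fintype.sum_prod_type, ← g2]
        rfl
      rw [g3, Fintype.card_fin, Fintype.sum_prod_type (f := fun v => f v ^ 2)]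
      refine g1.trans (mul_le_mul_of_nonneg_right (mul_le_mul_of_nonneg_right ?_ (by positivity))
        (Finset.sum_nonneg fun _ _ => Finset.sum_nonneg fun _ _ => sq_nonneg _))
      rw [Real.rpow_neg (by linarith), ← hr, one_div]
      exact sub_le_sub_left (inv_anti₀ (by linarith) r3) 1)
  obtain ⟨T, t1, t2⟩ := key.full
  have t3 : ∀ i, L i (up i (T i 1) (T i 2) (T i 3)) = T i 4 := fun i => by
    have := (t1 i).1
    rwa [(t1 i).2] at this
  have t4 : ∀ i x y z j, j ≠ a → j ≠ b → j ≠ e → up i x y z j = D i j := by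
    intro i x y z j h1 h2 h3
    simp only [up, update_of_ne h1, update_of_ne h2, update_of_ne h3]
  refine ⟨fun i => up i (T i 1) (T i 2) (T i 3), fun j => ?_, ?_, fun i j => t4 i _ _ _ j⟩
  · by_cases h3 : j = e
    · simp only [up, h3, update_self]
      exact t2 3
    by_cases h2 : j = b
    · simp only [up, h2, update_self, update_of_ne hbe]
      exact t2 2
    by_cases h1 : j = a
    · simp only [up, h1, update_self, update_of_ne hae, update_of_ne hab]
      exact t2 1
    · simp only [t4 _ _ _ _ j h1 h2 h3]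
      exact hD j
  · simp only [t3]
    exact t2 4

end Pool.Agent.Results.MP_356f68_co.SpectralGap
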