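import Mathlib
import Pool.Agent.Lib.MP_356f68_co.Hyp.Main

/-! A Latin hypercube of dimension `d ≥ 2` and large order `n` whose move operator has no
eigenvalue in a polynomially small window below `1` has a transversal exactly if `d` is odd,
`n` is odd or no abelian labelling forbids it. -/

set_option autoImplicit false

namespace Pool.Agent.Results.MP_356f68_co.WindowAllDim

open Pool.Agent.Lib.MP_356f68_co Pool.Agent.Lib.MP_356f68_co.Hyp Function

theorem result : ∀ d : ℕ, 2 ≤ d → ∃ n0 : ℕ, ∀ n : ℕ, n0 ≤ n → ∀ L : (Fin d → Fin n) → Fin n,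
    (∀ (x : Fin d → Fin n) (j : Fin d),
      Function.Bijective (fun t : Fin n => L (Function.update x j t))) →
    ∀ a b : Option (Fin d), a ≠ b →
    ∀ C : Finset (Option (Fin d) → Fin n), (∀ g, g ∈ C ↔ L (fun j => g (some j)) = g none) →
    (∀ (f : Fin n → Fin n → ℝ) (μ : ℝ), f ≠ 0 →
      (∀ r c : Fin n, ∑ k : Option (Fin d), ∑ g ∈ C, ∑ h ∈ C, ∑ r' : Fin n, ∑ c' : Fin n,
        (if k ≠ a ∧ k ≠ b ∧ g a = r ∧ h b = c ∧
            Function.update (Function.update g k (h k)) a r' ∈ C ∧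
            Function.update (Function.update h k (g k)) b c' ∈ C then f r' c' else 0)
          = μ * (((d : ℝ) - 1) * (n : ℝ) ^ (2 * (d - 1))) * f r c) →
      μ = 1 ∨ μ ≤ 1 - (n : ℝ) ^ (-(1 / (if d = 2 then 400 else 500) : ℝ))) →
    ((∃ T : Fin n → Fin d → Fin n, (∀ j : Fin d, Function.Injective (fun i => T i j)) ∧
        Function.Injective (fun i => L (T i))) ↔
      (Odd d ∨ Odd n ∨ ∀ (A : Type) [AddCommGroup A] (φ : Fin d → Fin n → A) (σ : Fin n → A),
        (∀ x : Fin d → Fin n, ∑ j, φ j (x j) = σ (L x)) → ∑ j, ∑ t, φ j t = ∑ s, σ s)) := by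
  intro d hd
  obtain ⟨C3, h3⟩ := Win.window
  obtain ⟨C4, h4⟩ := window4 (d + 1)
  obtain ⟨p, hp⟩ : ∃ p : ℕ, p = 396 := ⟨_, rfl⟩
  obtain ⟨q, hq⟩ : ∃ q : ℕ, q = 1001 := ⟨_, rfl⟩
  obtain ⟨p', hp'⟩ : ∃ p : ℕ, p = 480 := ⟨_, rfl⟩
  obtain ⟨q', hq'⟩ : ∃ q : ℕ, q = 1215 := ⟨_, rfl⟩
  rw [← hp, ← hq] at h3
  rw [← hp', ← hq'] at h4
  obtain ⟨n3, g3⟩ := size C3 p q 400 (by omega)
  obtain ⟨n4, g4⟩ := size C4 p' q' 500 (by omega)
  refine ⟨max n3 n4 + 1, fun n hn L hL a b hab C hC hW => ?_⟩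
  have : Nonempty (Fin n) := ⟨⟨0, by omega⟩⟩
  have hE : LK (fun g => g ∈ C) := fun k g => by
    simp only [hC]
    cases k with
    | none => simp
    | some j =>
      simp only [update_of_ne (Option.some_ne_none j).symm,
        update_comp_eq_of_injective' g (Option.some_injective _) j]
      exact (hL _ j).existsUnique _
  have hK : Fintype.card (Option (Fin d)) = d + 1 := by simp
  obtain ⟨k, -, hk⟩ := Finset.exists_mem_notMem_of_card_lt_card (s := {a, b}) (t := Finset.univ)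
    (Finset.card_le_two.trans_lt (by rw [Finset.card_univ, hK]; omega))
  simp only [Finset.mem_insert, Finset.mem_singleton, not_or] at hk
  have hak := Ne.symm hk.1
  have hbk := Ne.symm hk.2
  have hW' : ∀ η : ℝ, η ≤ (n : ℝ) ^ (-(1 / (if d = 2 then 400 else 500) : ℝ)) →
      WnK (fun g => g ∈ C) a b η := fun η hη f μ f0 f1 =>
    (hW f μ f0 fun r c => by
      have := f1 r c
      rw [hK, Fintype.card_fin, show d + 1 - 2 = d - 1 from rfl, Nat.cast_pred (by omega)] at this
      rw [← this]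
      refine Finset.sum_congr rfl fun k _ => ?_
      rw [← Finset.sum_product', ← Fintype.sum_prod_type', ← Finset.sum_subset
        (Finset.subset_univ (C ×ˢ C)) fun w _ hw => Finset.sum_eq_zero fun _ _ =>
          Finset.sum_eq_zero fun _ _ => if_neg fun e => hw
            (Finset.mem_product.2 ⟨e.2.2.2.2.1, e.2.2.2.2.2.1⟩)]
      refine Finset.sum_congr rfl fun w hw => ?_
      simp only [Finset.mem_product.1 hw, true_and]).imp_right fun g => by linarith
  have hT : (∃ T : Fin n → Fin d → Fin n, (∀ j, Injective (fun i => T i j)) ∧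
      Injective (fun i => L (T i))) ↔ ∃ T : Fin n → Option (Fin d) → Fin n, (∀ i, T i ∈ C) ∧
      ∀ j, Injective (fun i => T i j) := by
    refine ⟨fun ⟨T, t1, t2⟩ => ⟨fun i j => j.elim (L (T i)) (T i), fun i => (hC _).2 rfl,
      fun j => by cases j <;> simp [t1, t2]⟩, fun ⟨T, t1, t2⟩ => ⟨fun i j => T i (some j),
      fun j => t2 _, ?_⟩⟩
    simp only [(hC _).1 (t1 _)]
    exact t2 _
  have hS : (∀ (A : Type) [AddCommGroup A] (φ : Fin d → Fin n → A) (σ : Fin n → A),
      (∀ x, ∑ j, φ j (x j) = σ (L x)) → ∑ j, ∑ t, φ j t = ∑ s, σ s) ↔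
      ∀ (A : Type) [AddCommGroup A] (lam : Option (Fin d) → Fin n → A),
        (∀ g, g ∈ C → ∑ j, lam j (g j) = 0) → ∑ j, ∑ t, lam j t = 0 := by
    refine ⟨fun h A _ lam h0 => ?_, fun h A _ φ σ h0 => ?_⟩
    · have := h A (fun j => lam (some j)) (fun s => -lam none s) fun x => by
        have := h0 (fun j => j.elim (L x) x) ((hC _).2 rfl)
        rw [Fintype.sum_option] at this
        exact eq_neg_of_add_eq_zero_right this
      rw [Fintype.sum_option, this, Finset.sum_neg_distrib, add_neg_cancel]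
    · have := h A (fun j => j.elim (fun s => -σ s) φ) fun g hg => by
        rw [Fintype.sum_option, ← (hC _).1 hg]
        exact neg_add_eq_zero.2 (h0 _).symm
      rw [Fintype.sum_option] at this
      exact (neg_add_eq_zero.1 (Finset.sum_neg_distrib σ ▸ this :)).symm
  rw [hT, hS]
  refine ⟨fun ⟨T, t1, t2⟩ => Or.inr (Or.inr fun A _ => trans_zero t1 t2), fun h => ?_⟩
  have h' : ∀ (A : Type) [AddCommGroup A] (lam : Option (Fin d) → Fin n → A),
      (∀ g, g ∈ C → ∑ j, lam j (g j) = 0) → ∑ j, ∑ t, lam j t = 0 := by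
    rcases h with h | h | h
    · exact fun A _ => parity hE hab hak hbk (Or.inl (hK ▸ h.add_one))
    · exact fun A _ => parity hE hab hak hbk (Or.inr (by rwa [Fintype.card_fin]))
    · exact h
  by_cases h2 : d = 2
  · obtain ⟨X, x1, x2, x3⟩ := g3 n (by omega)
    rw [if_pos h2] at hW'
    refine window3 hE hab hak hbk (fun j => ?_) (fun _ => ⟨0, by omega⟩) (hW' _ x3) h'
      fun L hL hW hS => Win.pm_trans (h3 _ X x1 (by rwa [Fintype.card_fin]) L hL hW hS)
    have := Finset.eq_univ_of_card _ ((Finset.card_eq_three.2 ⟨a, b, k, hab, hak, hbk, rfl⟩).trans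
      (by rw [hK, h2]))
    simpa using Finset.eq_univ_iff_forall.1 this j
  · obtain ⟨X, x1, x2, x3⟩ := g4 n (by omega)
    rw [if_neg h2] at hW'
    obtain ⟨e, -, he⟩ := Finset.exists_mem_notMem_of_card_lt_card (s := {a, b, k})
      (t := Finset.univ) (Finset.card_le_three.trans_lt (by rw [Finset.card_univ, hK]; omega))
    simp only [Finset.mem_insert, Finset.mem_singleton, not_or] at he
    exact (h4 _ _ X hK x1 (by rwa [Fintype.card_fin]) _ hE a b k e hab hak hbk (Ne.symm he.1)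
      (Ne.symm he.2.1) (Ne.symm he.2.2) (hW' _ x3) h').full a

end Pool.Agent.Results.MP_356f68_co.WindowAllDim
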